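import Pool.Agent.H94.Stab.M14
import Pool.Agent.H94.Stab.Repr
import Pool.Agent.H94.Stab.M9b
import Pool.Agent.H65.Stab.M13
import Pool.Agent.H58.Stab.TheoremB

/-!
# Interior bounds for stable solutions without a sign condition on f (MP_de3e90_an, Q1)
-/

set_option autoImplicit false

open MeasureTheory Set Filter Topology
open scoped ContDiff

namespace Pool.Agent.Results.MP_de3e90_an.InteriorBound

open Pool.Agent.H94.Stab

/-- **Interior bound, no sign condition.** For `6 ≤ n ≤ 9` there is a constant `C` such that for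
every `f ∈ C¹(ℝ)` and every stable solution `u` of `-Δu = f(u)` in the unit ball of `ℝⁿ`, smooth up
to the boundary, `|u| ≤ C ‖u‖_{W^{1,2}(B_1)}` on the closed ball of radius `1/2`. -/
theorem result (n : ℕ) (h6 : 6 ≤ n) (h9 : n ≤ 9) :
    ∃ C : ℝ, ∀ f : ℝ → ℝ, ContDiff ℝ 1 f → ∀ u : E n → ℝ, IsStableSolution f u →
      ∀ y : E n, ‖y‖ ≤ 1 / 2 →
        |u y| ≤ C * Real.sqrt (∫ x in Metric.ball (0 : E n) 1, (u x ^ 2 + ∑ i, pd i u x ^ 2)) :=
  main_of_pointwise (pointwise_of (radial_repr (by omega))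
    (fun _ _ _ h => SW.theoremB_of_norm (by omega) h (b_norm (by omega) h)) h6 h9)

end Pool.Agent.Results.MP_de3e90_an.InteriorBound
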